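import Mathlib
import Pool.Agent.H630R3.LatinDefs
import Pool.Agent.H630R3.OctPaige

set_option autoImplicit false

namespace Pool.Agent.Results.MP_b62fd5_al.OctonionLoop

open Pool.Agent.H630R3.Latin

theorem result :
    ∃ (T : Type) (_ : Mul T),
      IsQuasigroup T ∧ PrimitiveOnCells T ∧
      (∀ (G : Type) [Group G], ¬ Isotopic T G) ∧
      (∀ (F : Type) [Field F], ¬ Isotopic T (PaigeLoop F)) :=
  ⟨Pool.Agent.H630R3.OctLoop, inferInstance,
    Pool.Agent.H630R3.OctLoop.mdata.isQuasigroup,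
    Pool.Agent.H630R3.OctLoop.mdata.primitive,
    fun G _ => Pool.Agent.H630R3.OctLoop.not_isotopic_group G,
    fun F _ => Pool.Agent.H630R3.Latin.not_isotopic_paige F⟩

end Pool.Agent.Results.MP_b62fd5_al.OctonionLoop
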